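import Pool.Agent.H51.MO.TargetsA

/-! Row A_IND (MP_c62aed_lc, monotone circuits): equations without short dependencies. -/

set_option autoImplicit false

namespace Pool.Agent.H58.MO

open Finset Pool.Agent.H51.MO

theorem sg_cases (c : Bool) : sg c = 1 ∨ sg c = -1 := by
  cases c <;> simp [sg]

theorem sg_ne (c : Bool) : sg c ≠ 0 := by
  cases c <;> simp [sg]

theorem prod_sg {ι : Type} (s : Finset ι) (f : ι → ℝ) (h : ∀ i ∈ s, f i = 1 ∨ f i = -1) :
    ∏ i ∈ s, f i = 1 ∨ ∏ i ∈ s, f i = -1 := by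
  classical
  induction s using Finset.induction_on with
  | empty => simp
  | insert a s ha ih =>
    rw [prod_insert ha]
    rcases h a (mem_insert_self a s) with h1 | h1 <;>
      rcases ih (fun i hi => h i (mem_insert_of_mem hi)) with h2 | h2 <;>
      simp [h1, h2]

theorem ys_cases {k b : ℕ} (s : Om k b) (x : Pt k b) : ys s x = 1 ∨ ys s x = -1 := by
  unfold ys
  rcases prod_sg univ (fun l => sg (x l (s.1 l))) (fun l _ => sg_cases _) with h | h <;>
    rcases sg_cases s.2 with h2 | h2 <;> simp [h, h2]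

/-- the sum of a product of characters -/
theorem sum_prod_pow {k b : ℕ} (n : Fin k → Fin b → ℕ) :
    ∑ x : Pt k b, ∏ l, ∏ i, sg (x l i) ^ n l i = ∏ l, ∏ i, (1 + (-1 : ℝ) ^ n l i) := by
  classical
  have h1 : ∀ l : Fin k, ∑ y : Fin b → Bool, ∏ i, sg (y i) ^ n l i =
      ∏ i, (1 + (-1 : ℝ) ^ n l i) := by
    intro l
    have h2 : ∀ i : Fin b, (1 + (-1 : ℝ) ^ n l i) = ∑ c : Bool, sg c ^ n l i := by
      intro i
      simp [sg]
    rw [prod_congr rfl (fun i _ => h2 i), prod_univ_sum, Fintype.piFinset_univ]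
  rw [prod_congr rfl (fun l _ => (h1 l).symm), prod_univ_sum, Fintype.piFinset_univ]

theorem yJ_eq {k b m : ℕ} (F : Fin m → Om k b) (J : Finset (Fin m)) (x : Pt k b) :
    yJ F J x = (∏ u ∈ J, sg (F u).2) *
      ∏ l, ∏ i, sg (x l i) ^ (J.filter (fun u => (F u).1 l = i)).card := by
  classical
  unfold yJ ys
  rw [prod_mul_distrib, prod_comm]
  congr 1
  refine prod_congr rfl fun l _ => ?_
  rw [← prod_fiberwise J (fun u => (F u).1 l) (fun u => sg (x l ((F u).1 l)))]
  refine prod_congr rfl fun i _ => ?_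
  rw [← prod_const]
  refine prod_congr rfl fun u hu => ?_
  rw [(mem_filter.1 hu).2]

theorem card_Pt (k b : ℕ) : (univ : Finset (Pt k b)).card = 2 ^ (k * b) := by
  rw [card_univ, Fintype.card_fun, Fintype.card_fun, Fintype.card_bool, Fintype.card_fin,
    Fintype.card_fin, ← pow_mul, mul_comm]

/-- a light product has sum zero -/
theorem sum_zero {k b m w : ℕ} {e : ℝ} (F : Fin m → Om k b) (he0 : 0 ≤ e) (he1 : e < 1)
    (hL : Light univ w e ∅ F) (J : Finset (Fin m)) (hJ : J.Nonempty) (hw : J.card ≤ w) :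
    ∑ x : Pt k b, yJ F J x = 0 := by
  classical
  have h1 := hL J (disjoint_empty_right J) hJ hw
  have h2 : ∑ x : Pt k b, yJ F J x = (∏ u ∈ J, sg (F u).2) *
      ∏ l, ∏ i, (1 + (-1 : ℝ) ^ (J.filter (fun u => (F u).1 l = i)).card) := by
    rw [sum_congr rfl (fun x _ => yJ_eq F J x), ← mul_sum, sum_prod_pow]
  by_cases hodd : ∃ l i, Odd (J.filter (fun u => (F u).1 l = i)).card
  · obtain ⟨l, i, hli⟩ := hodd
    rw [h2]
    have h3 : ∏ l, ∏ i, (1 + (-1 : ℝ) ^ (J.filter (fun u => (F u).1 l = i)).card) = 0 := by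
      refine prod_eq_zero (mem_univ l) (prod_eq_zero (mem_univ i) ?_)
      rw [hli.neg_one_pow]
      norm_num
    rw [h3, mul_zero]
  · exfalso
    push Not at hodd
    have h3 : ∏ l : Fin k, ∏ i : Fin b,
        (1 + (-1 : ℝ) ^ (J.filter (fun u => (F u).1 l = i)).card) = 2 ^ (k * b) := by
      have h4 : ∀ (l : Fin k) (i : Fin b),
          (1 + (-1 : ℝ) ^ (J.filter (fun u => (F u).1 l = i)).card) = 2 := by
        intro l i
        rw [(Nat.not_odd_iff_even.1 (hodd l i)).neg_one_pow]
        norm_num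
      rw [prod_congr rfl (fun l _ => prod_congr rfl (fun i _ => h4 l i))]
      simp only [prod_const, card_univ, Fintype.card_fin]
      rw [← pow_mul, mul_comm]
    have h5 : |∏ u ∈ J, sg (F u).2| = 1 := by
      rcases prod_sg J (fun u => sg (F u).2) (fun u _ => sg_cases _) with h | h <;> rw [h] <;> simp
    rw [h2, h3, abs_mul, h5, one_mul, card_Pt, abs_of_pos (by positivity)] at h1
    push_cast at h1
    have h6 : e ^ J.card < 1 := pow_lt_one₀ he0 he1 hJ.card_pos.ne'
    have h7 : (0 : ℝ) < 2 ^ (k * b) := by positivity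
    nlinarith

theorem pf_AIND : S_AIND := by
  classical
  intro k b m w e I' F he0 he1 hL hI'
  have h1 : ∑ x : Pt k b, ∏ u ∈ I', (1 + ys (F u) x) = 2 ^ (k * b) := by
    have h2 : ∀ x : Pt k b, ∏ u ∈ I', (1 + ys (F u) x) = ∑ J ∈ I'.powerset, yJ F J x := by
      intro x
      rw [prod_one_add]
      rfl
    rw [sum_congr rfl (fun x _ => h2 x), sum_comm]
    rw [sum_eq_single (∅ : Finset (Fin m))]
    · unfold yJ
      simp only [prod_empty, sum_const, nsmul_eq_mul, mul_one]
      rw [card_Pt]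
      push_cast
      ring
    · intro J hJ hne
      exact sum_zero F he0 he1 hL J (nonempty_iff_ne_empty.2 hne)
        ((card_le_card (mem_powerset.1 hJ)).trans hI')
    · intro h
      exact absurd (empty_mem_powerset I') h
  have h3 : ∀ x : Pt k b, ∏ u ∈ I', (1 + ys (F u) x) =
      if (∀ u ∈ I', ys (F u) x = 1) then (2 : ℝ) ^ I'.card else 0 := by
    intro x
    by_cases h : ∀ u ∈ I', ys (F u) x = 1
    · rw [if_pos h, ← prod_const]
      refine prod_congr rfl fun u hu => ?_
      rw [h u hu]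
      norm_num
    · rw [if_neg h]
      push Not at h
      obtain ⟨u, hu, hne⟩ := h
      refine prod_eq_zero hu ?_
      rw [(ys_cases (F u) x).resolve_left hne]
      norm_num
  rw [sum_congr rfl (fun x _ => h3 x), ← sum_filter, sum_const, nsmul_eq_mul] at h1
  exact_mod_cast h1

end Pool.Agent.H58.MO
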