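import Pool.Agent.H51.MO.TargetsA
import Pool.Agent.H58.MO.AIND

/-! Row A_FAR (MP_c62aed_lc, monotone circuits): most formulas are far from satisfiable. -/

set_option autoImplicit false

namespace Pool.Agent.H58.MO

open Finset Pool.Agent.H51.MO

theorem card_S (k b : ℕ) : ((univ : Finset (Fin k → Fin b)).card : ℝ) = (b : ℝ) ^ k := by
  rw [card_univ, Fintype.card_fun, Fintype.card_fin, Fintype.card_fin]
  push_cast
  rfl

/-- one equation -/
theorem sum_exp_one {k b : ℕ} (x : Pt k b) (ε : ℝ) :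
    ∑ s : Om k b, Real.exp (ε * ys s x) = 2 * (b : ℝ) ^ k * Real.cosh ε := by
  rw [Fintype.sum_prod_type]
  have h : ∀ S : Fin k → Fin b, ∑ c : Bool, Real.exp (ε * ys (S, c) x) = 2 * Real.cosh ε := by
    intro S
    have h1 : ∀ c : Bool, ys (S, c) x = sg c * ∏ l, sg (x l (S l)) := fun c => rfl
    rw [Fintype.sum_bool, h1, h1]
    rcases prod_sg univ (fun l => sg (x l (S l))) (fun l _ => sg_cases _) with h | h
    · rw [h, Real.cosh_eq]
      simp only [sg]
      norm_num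
      ring
    · rw [h, Real.cosh_eq]
      simp only [sg]
      norm_num
      ring
  rw [sum_congr rfl (fun S _ => h S), sum_const, nsmul_eq_mul, card_S]
  ring

theorem sum_exp_all {k b m : ℕ} (x : Pt k b) (ε : ℝ) :
    ∑ F : Fin m → Om k b, Real.exp (ε * ∑ u, ys (F u) x) =
      (2 * (b : ℝ) ^ k * Real.cosh ε) ^ m := by
  classical
  have h1 : ∀ F : Fin m → Om k b, Real.exp (ε * ∑ u, ys (F u) x) =
      ∏ u, Real.exp (ε * ys (F u) x) := by
    intro F
    rw [mul_sum, Real.exp_sum]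
  rw [sum_congr rfl (fun F _ => h1 F)]
  have h2 := prod_univ_sum (fun _ : Fin m => (univ : Finset (Om k b)))
    (fun _ s => Real.exp (ε * ys s x))
  rw [Fintype.piFinset_univ] at h2
  rw [← h2, prod_congr rfl (fun _ _ => sum_exp_one x ε), prod_const, card_univ, Fintype.card_fin]

theorem viol_sum {k b m : ℕ} (F : Fin m → Om k b) (x : Pt k b) :
    ∑ u, ys (F u) x = (m : ℝ) - 2 * ((univ.filter (fun u => ys (F u) x = -1)).card : ℝ) := by
  classical
  have h1 : ∀ u : Fin m, ys (F u) x = 1 - 2 * (if ys (F u) x = -1 then (1 : ℝ) else 0) := by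
    intro u
    rcases ys_cases (F u) x with h | h <;> rw [h] <;> norm_num
  rw [sum_congr rfl (fun u _ => h1 u), sum_sub_distrib, ← mul_sum, sum_boole]
  simp

theorem pf_AFAR : S_AFAR := by
  classical
  intro ε hε
  obtain ⟨K1, hK1⟩ := exists_nat_ge (5 / ε ^ 2)
  refine ⟨K1 + 1, by omega, fun k b m hk hb hm => ?_⟩
  have hb0 : (0 : ℝ) < b := by exact_mod_cast hb
  set N : ℝ := (2 * (b : ℝ) ^ k) ^ m with hN
  have hN0 : 0 ≤ N := by positivity
  -- bad formulas of a point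
  have hx : ∀ x : Pt k b, ((univ.filter (fun F : Fin m → Om k b =>
      ((univ.filter (fun u => ys (F u) x = -1)).card : ℝ) < (1 - ε) * ((m : ℝ) / 2))).card : ℝ) ≤
      N * Real.exp (-(m * ε ^ 2 / 2)) := by
    intro x
    have h1 : ∀ F ∈ univ.filter (fun F : Fin m → Om k b =>
        ((univ.filter (fun u => ys (F u) x = -1)).card : ℝ) < (1 - ε) * ((m : ℝ) / 2)),
        Real.exp (ε * (ε * m)) ≤ Real.exp (ε * ∑ u, ys (F u) x) := by
      intro F hF
      have h2 := (mem_filter.1 hF).2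
      rw [viol_sum]
      refine Real.exp_le_exp.2 (mul_le_mul_of_nonneg_left ?_ hε.le)
      linarith
    have h3 := sum_le_sum h1
    rw [sum_const, nsmul_eq_mul] at h3
    have h4 := sum_le_univ_sum_of_nonneg (s := univ.filter (fun F : Fin m → Om k b =>
        ((univ.filter (fun u => ys (F u) x = -1)).card : ℝ) < (1 - ε) * ((m : ℝ) / 2)))
      (f := fun F : Fin m → Om k b => Real.exp (ε * ∑ u, ys (F u) x))
      (fun F => (Real.exp_pos _).le)
    have h5 := h3.trans h4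
    rw [sum_exp_all] at h5
    have h6 : (2 * (b : ℝ) ^ k * Real.cosh ε) ^ m ≤ N * Real.exp (m * (ε ^ 2 / 2)) := by
      rw [mul_pow, Real.exp_nat_mul]
      refine mul_le_mul_of_nonneg_left ?_ hN0
      exact pow_le_pow_left₀ (Real.cosh_pos _).le (Real.cosh_le_exp_half_sq ε) _
    have h7 := h5.trans h6
    have h8 : Real.exp (m * (ε ^ 2 / 2)) =
        Real.exp (-(m * ε ^ 2 / 2)) * Real.exp (ε * (ε * m)) := by
      rw [← Real.exp_add]
      congr 1
      ring
    rw [h8] at h7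
    have h9 : _ ≤ (N * Real.exp (-(m * ε ^ 2 / 2))) * Real.exp (ε * (ε * m)) :=
      h7.trans (le_of_eq (mul_assoc _ _ _).symm)
    exact le_of_mul_le_mul_right h9 (Real.exp_pos _)
  -- union bound
  have hU : ((univ.filter (fun F : Fin m → Om k b => ∃ x : Pt k b,
      ((univ.filter (fun u => ys (F u) x = -1)).card : ℝ) < (1 - ε) * ((m : ℝ) / 2))).card : ℝ) ≤
      2 ^ (k * b) * (N * Real.exp (-(m * ε ^ 2 / 2))) := by
    have h1 : (univ.filter (fun F : Fin m → Om k b => ∃ x : Pt k b,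
        ((univ.filter (fun u => ys (F u) x = -1)).card : ℝ) < (1 - ε) * ((m : ℝ) / 2))) ⊆
        (univ : Finset (Pt k b)).biUnion (fun x => univ.filter (fun F : Fin m → Om k b =>
        ((univ.filter (fun u => ys (F u) x = -1)).card : ℝ) < (1 - ε) * ((m : ℝ) / 2))) := by
      intro F hF
      obtain ⟨x, hx'⟩ := (mem_filter.1 hF).2
      exact mem_biUnion.2 ⟨x, mem_univ _, mem_filter.2 ⟨mem_univ _, hx'⟩⟩
    have h2 := (card_le_card h1).trans card_biUnion_le
    have h3 : ((univ.filter (fun F : Fin m → Om k b => ∃ x : Pt k b,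
        ((univ.filter (fun u => ys (F u) x = -1)).card : ℝ) < (1 - ε) * ((m : ℝ) / 2))).card : ℝ) ≤
        ∑ x : Pt k b, ((univ.filter (fun F : Fin m → Om k b =>
        ((univ.filter (fun u => ys (F u) x = -1)).card : ℝ) < (1 - ε) * ((m : ℝ) / 2))).card : ℝ) := by
      exact_mod_cast h2
    refine h3.trans ((sum_le_sum fun x _ => hx x).trans (le_of_eq ?_))
    rw [sum_const, nsmul_eq_mul, card_Pt]
    push_cast
    rfl
  -- the parameters
  have hkb : (1 : ℝ) ≤ (k : ℝ) * b := by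
    have h1 : (1 : ℝ) ≤ k := by exact_mod_cast hk
    have h2 : (1 : ℝ) ≤ b := by exact_mod_cast hb
    nlinarith
  have hm2 : 5 * ((k : ℝ) * b) ≤ m * ε ^ 2 := by
    have h1 : ((K1 : ℝ) + 1) * (k * b) ≤ m := by exact_mod_cast hm
    have h2 : 5 ≤ K1 * ε ^ 2 := (div_le_iff₀ (by positivity)).1 hK1
    have h3 : 5 ≤ (K1 + 1) * ε ^ 2 := by nlinarith [sq_nonneg ε]
    calc 5 * ((k : ℝ) * b) ≤ ((K1 + 1) * ε ^ 2) * (k * b) :=
          mul_le_mul_of_nonneg_right h3 (by linarith)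
      _ = ((K1 + 1) * (k * b)) * ε ^ 2 := by ring
      _ ≤ m * ε ^ 2 := mul_le_mul_of_nonneg_right h1 (sq_nonneg ε)
  have hexp : 4 * (2 : ℝ) ^ (k * b) * Real.exp (-(m * ε ^ 2 / 2)) ≤ 1 := by
    have h1 : (4 : ℝ) * 2 ^ (k * b) = Real.exp (Real.log 2 * (k * b + 2)) := by
      rw [← Real.rpow_def_of_pos (by norm_num : (0 : ℝ) < 2), Real.rpow_add (by norm_num)]
      have h0 : ((k : ℝ) * b) = ((k * b : ℕ) : ℝ) := by push_cast; ring
      rw [h0, Real.rpow_natCast]
      have h01 : (2 : ℝ) ^ (2 : ℝ) = 4 := by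
        rw [show (2 : ℝ) ^ (2 : ℝ) = (2 : ℝ) ^ ((2 : ℕ) : ℝ) by norm_num, Real.rpow_natCast]
        norm_num
      rw [h01]
      ring
    rw [h1, ← Real.exp_add, Real.exp_le_one_iff]
    have h2 : Real.log 2 < 0.6931471808 := Real.log_two_lt_d9
    have h3 : 0 < Real.log 2 := Real.log_pos (by norm_num)
    nlinarith
  calc 4 * ((univ.filter (fun F : Fin m → Om k b => ∃ x : Pt k b,
      ((univ.filter (fun u => ys (F u) x = -1)).card : ℝ) < (1 - ε) * ((m : ℝ) / 2))).card : ℝ)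
      ≤ 4 * (2 ^ (k * b) * (N * Real.exp (-(m * ε ^ 2 / 2)))) :=
        mul_le_mul_of_nonneg_left hU (by norm_num)
    _ = (4 * (2 : ℝ) ^ (k * b) * Real.exp (-(m * ε ^ 2 / 2))) * N := by ring
    _ ≤ 1 * N := mul_le_mul_of_nonneg_right hexp hN0
    _ = N := one_mul N

end Pool.Agent.H58.MO
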