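import Pool.Agent.H51.MO.TargetsA

/-! Row A_RES (MP_c62aed_lc, monotone circuits): density restoration. -/

set_option autoImplicit false

namespace Pool.Agent.H58.MO

open Finset Pool.Agent.H51.MO

open Classical in
/-- a subcube in the product space -/
theorem card_cube {Om : Type} [Fintype Om] {m : ℕ} (C : Finset (Fin m → Om))
    (I0 : Finset (Fin m)) (σ : Fin m → Om) (hC : ∀ F ∈ C, ∀ i ∈ I0, F i = σ i) :
    C.card * Fintype.card Om ^ I0.card ≤ Fintype.card Om ^ m := by
  have h1 : (C ×ˢ (univ : Finset (I0 → Om))).card = C.card * Fintype.card Om ^ I0.card := by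
    rw [card_product, card_univ, Fintype.card_fun, Fintype.card_coe]
  have h2 : (univ : Finset (Fin m → Om)).card = Fintype.card Om ^ m := by
    rw [card_univ, Fintype.card_fun, Fintype.card_fin]
  rw [← h1, ← h2]
  refine card_le_card_of_injOn
    (fun q => fun i => if h : i ∈ I0 then q.2 ⟨i, h⟩ else q.1 i) (fun _ _ => mem_coe.2 (mem_univ _)) ?_
  rintro ⟨F, g⟩ hF ⟨F', g'⟩ hF' h
  have hF1 := hC F (mem_product.1 (mem_coe.1 hF)).1
  have hF2 := hC F' (mem_product.1 (mem_coe.1 hF')).1
  have h3 : ∀ i, (if h : i ∈ I0 then g ⟨i, h⟩ else F i) = (if h : i ∈ I0 then g' ⟨i, h⟩ else F' i) :=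
    fun i => congrFun h i
  have e1 : F = F' := by
    funext i
    by_cases hi : i ∈ I0
    · rw [hF1 i hi, hF2 i hi]
    · have := h3 i
      simpa only [hi, dite_false] using this
  have e2 : g = g' := by
    funext ⟨i, hi⟩
    have := h3 i
    simpa only [hi, dite_true] using this
  rw [e1, e2]

theorem pf_ARES : S_ARES := by
  classical
  intro Om _ _ m β T hβ hT P
  induction hn : P.card using Nat.strong_induction_on generalizing P with
  | _ n ih =>
  by_cases hPT : (P.card : ℝ) ≤ T
  · refine ⟨P, fun _ => ∅, Subset.refl _, hPT, ?_⟩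
    intro F hF
    rw [sdiff_self] at hF
    exact absurd hF (notMem_empty F)
  push Not at hPT
  have hP0 : (0 : ℝ) < P.card := hT.trans hPT
  have hN : (0 : ℝ) < Fintype.card Om := by exact_mod_cast Fintype.card_pos
  -- the maximal index set
  let S : Finset (Finset (Fin m)) := univ.filter (fun I0 => ∃ σ : Fin m → Om,
    β ^ I0.card * P.card ≤
      ((P.filter (fun F => ∀ i ∈ I0, F i = σ i)).card : ℝ) * (Fintype.card Om : ℝ) ^ I0.card)
  have hS : S.Nonempty := by
    obtain ⟨o⟩ := ‹Nonempty Om›
    refine ⟨∅, mem_filter.2 ⟨mem_univ _, fun _ => o, ?_⟩⟩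
    simp
  obtain ⟨I0, hI0, hmax⟩ := exists_max_image S card hS
  obtain ⟨σ, hσ⟩ := (mem_filter.1 hI0).2
  set C := P.filter (fun F => ∀ i ∈ I0, F i = σ i) with hCdef
  have hCP : C ⊆ P := filter_subset _ _
  have hCne : C.Nonempty := by
    rw [← card_pos]
    have h1 : 0 < (C.card : ℝ) * (Fintype.card Om : ℝ) ^ I0.card :=
      lt_of_lt_of_le (by positivity) hσ
    have h2 : (0 : ℝ) < C.card := pos_of_mul_pos_left h1 (by positivity)
    exact_mod_cast h2
  have hcube : (C.card : ℝ) * (Fintype.card Om : ℝ) ^ I0.card ≤ (Fintype.card Om : ℝ) ^ m := by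
    have := card_cube C I0 σ (fun F hF => (mem_filter.1 hF).2)
    exact_mod_cast this
  have hTI : T * β ^ I0.card ≤ (Fintype.card Om : ℝ) ^ m := by
    refine le_trans ?_ (hσ.trans hcube)
    rw [mul_comm]
    exact mul_le_mul_of_nonneg_left hPT.le (by positivity)
  have hdns : Dns β I0 C := by
    intro J hJ τ
    by_contra hcon
    push Not at hcon
    have hJne : J.Nonempty := by
      rw [nonempty_iff_ne_empty]
      rintro rfl
      simp at hcon
    let σ' : Fin m → Om := fun i => if i ∈ I0 then σ i else τ i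
    have hfil : P.filter (fun F => ∀ i ∈ I0 ∪ J, F i = σ' i) =
        C.filter (fun F => ∀ i ∈ J, F i = τ i) := by
      ext F
      simp only [hCdef, mem_filter, mem_union]
      constructor
      · rintro ⟨h1, h2⟩
        refine ⟨⟨h1, fun i hi => ?_⟩, fun i hi => ?_⟩
        · have := h2 i (Or.inl hi)
          simpa only [σ', hi, if_true] using this
        · have hi0 : i ∉ I0 := disjoint_left.1 hJ hi
          have := h2 i (Or.inr hi)
          simpa only [σ', hi0, if_false] using this
      · rintro ⟨⟨h1, h2⟩, h3⟩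
        refine ⟨h1, fun i hi => ?_⟩
        by_cases hi0 : i ∈ I0
        · simp only [σ', hi0, if_true]
          exact h2 i hi0
        · simp only [σ', hi0, if_false]
          exact h3 i (hi.resolve_left hi0)
    have hcard : (I0 ∪ J).card = I0.card + J.card := card_union_of_disjoint hJ.symm
    have hmem : I0 ∪ J ∈ S := by
      refine mem_filter.2 ⟨mem_univ _, σ', ?_⟩
      rw [hfil, hcard, pow_add, pow_add]
      calc β ^ I0.card * β ^ J.card * P.card = β ^ J.card * (β ^ I0.card * P.card) := by ring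
        _ ≤ β ^ J.card * ((C.card : ℝ) * (Fintype.card Om : ℝ) ^ I0.card) :=
            mul_le_mul_of_nonneg_left hσ (by positivity)
        _ = (β ^ J.card * C.card) * (Fintype.card Om : ℝ) ^ I0.card := by ring
        _ ≤ (((C.filter (fun F => ∀ i ∈ J, F i = τ i)).card : ℝ) *
              (Fintype.card Om : ℝ) ^ J.card) * (Fintype.card Om : ℝ) ^ I0.card :=
            mul_le_mul_of_nonneg_right hcon.le (by positivity)
        _ = _ := by ring
    have h5 := hmax _ hmem
    have h6 : 0 < J.card := hJne.card_pos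
    omega
  -- induction
  have hlt : (P \ C).card < n := by
    rw [← hn, card_sdiff_of_subset hCP]
    have h1 : 0 < C.card := hCne.card_pos
    have h2 : 0 < P.card := by exact_mod_cast hP0
    omega
  obtain ⟨E, I1, hE, hET, hI1⟩ := ih _ hlt (P \ C) rfl
  refine ⟨E, fun F => if F ∈ C then I0 else I1 F, hE.trans sdiff_subset, hET, ?_⟩
  intro F hF
  obtain ⟨hFP, hFE⟩ := mem_sdiff.1 hF
  by_cases hFC : F ∈ C
  · simp only [hFC, if_true]
    have hFσ := (mem_filter.1 hFC).2
    refine ⟨hTI, ?_⟩
    have hcls : cls (fun F => if F ∈ C then I0 else I1 F) (P \ E) F = C := by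
      ext F'
      unfold cls
      simp only [hFC, if_true]
      rw [mem_filter]
      constructor
      · rintro ⟨h1, _, h3⟩
        refine mem_filter.2 ⟨(mem_sdiff.1 h1).1, fun i hi => ?_⟩
        rw [h3 i hi, hFσ i hi]
      · intro hF'
        have hF'E : F' ∉ E := fun h => (mem_sdiff.1 (hE h)).2 hF'
        refine ⟨mem_sdiff.2 ⟨hCP hF', hF'E⟩, ?_, fun i hi => ?_⟩
        · simp only [hF', if_true]
        · rw [(mem_filter.1 hF').2 i hi, hFσ i hi]
    rw [hcls]
    exact hdns
  · have hF1 : F ∈ (P \ C) \ E := mem_sdiff.2 ⟨mem_sdiff.2 ⟨hFP, hFC⟩, hFE⟩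
    obtain ⟨h1, h2⟩ := hI1 F hF1
    simp only [hFC, if_false]
    refine ⟨h1, ?_⟩
    have hcls : cls (fun F => if F ∈ C then I0 else I1 F) (P \ E) F = cls I1 ((P \ C) \ E) F := by
      ext F'
      unfold cls
      simp only [hFC, if_false]
      refine mem_filter.trans (Iff.trans ?_ mem_filter.symm)
      constructor
      · rintro ⟨g1, g2, g3⟩
        obtain ⟨g4, g5⟩ := mem_sdiff.1 g1
        by_cases hF'C : F' ∈ C
        · exfalso
          simp only [hF'C, if_true] at g2
          apply hFC
          refine mem_filter.2 ⟨hFP, fun i hi => ?_⟩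
          have hi1 : i ∈ I1 F := g2 ▸ hi
          rw [← g3 i hi1]
          exact (mem_filter.1 hF'C).2 i hi
        · simp only [hF'C, if_false] at g2
          exact ⟨mem_sdiff.2 ⟨mem_sdiff.2 ⟨g4, hF'C⟩, g5⟩, g2, g3⟩
      · rintro ⟨g1, g2, g3⟩
        obtain ⟨g4, g5⟩ := mem_sdiff.1 g1
        obtain ⟨g6, g7⟩ := mem_sdiff.1 g4
        refine ⟨mem_sdiff.2 ⟨g6, g5⟩, ?_, g3⟩
        simp only [g7, if_false]
        exact g2
    rw [hcls]
    exact h2

end Pool.Agent.H58.MO
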