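import Pool.Agent.H51.MO.TargetsB

/-! Row B_MABS (MP_c62aed_lc, monotone circuits): the abstract inequality. -/

set_option autoImplicit false

namespace Pool.Agent.H58.MO

open Finset Pool.Agent.H51.MO
open Pool.Agent.H1.LP (Clause)

theorem sum_sqrt_le {ι : Type} [Fintype ι] (f : ι → ℝ) (hf : ∀ i, 0 ≤ f i) :
    ∑ i, Real.sqrt (f i) ≤ Real.sqrt (Fintype.card ι * ∑ i, f i) := by
  refine Real.le_sqrt_of_sq_le ?_
  refine (sq_sum_le_card_mul_sum_sq (s := (univ : Finset ι)) (f := fun i => Real.sqrt (f i))).trans ?_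
  rw [card_univ]
  refine le_of_eq ?_
  congr 1
  exact sum_congr rfl fun i _ => Real.sq_sqrt (hf i)

/-- the leaf inequality for all rectangles -/
theorem leaf_all {X Y : Type} [Fintype X] [Fintype Y] {n R : ℕ} (K : Y → X → ℝ) (ka : ℝ)
    (FY : Y → Set (Clause n)) (FX : X → Set (Clause n)) (inF : Y → Clause n → Fin R → Prop)
    (hR : 1 ≤ R) (hka : 0 ≤ ka) (hin : ∀ a, ∀ C ∈ FY a, ∃ i, inF a C i)
    (hleaf : ∀ (C : Clause n) (i : Fin R) (A : Finset Y) (B : Finset X),
      (∀ a ∈ A, C ∈ FY a ∧ inF a C i) → (∀ x ∈ B, C ∉ FX x) →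
      ∑ a ∈ A, ∑ x ∈ B, K a x ≤ ka * Real.sqrt ((A.card : ℝ) * B.card))
    (C : Clause n) (A : Finset Y) (B : Finset X) (hA : ∀ a ∈ A, C ∈ FY a)
    (hB : ∀ x ∈ B, C ∉ FX x) :
    ∑ a ∈ A, ∑ x ∈ B, K a x ≤ ka * Real.sqrt R * Real.sqrt ((A.card : ℝ) * B.card) := by
  classical
  have hch : ∀ a : Y, ∃ i : Fin R, C ∈ FY a → inF a C i := by
    intro a
    by_cases h : C ∈ FY a
    · obtain ⟨i, hi⟩ := hin a C h
      exact ⟨i, fun _ => hi⟩
    · exact ⟨⟨0, hR⟩, fun h' => absurd h' h⟩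
  choose f hf using hch
  rw [← sum_fiberwise A f (fun a => ∑ x ∈ B, K a x)]
  have h1 : ∀ i : Fin R, ∑ a ∈ A.filter (fun a => f a = i), ∑ x ∈ B, K a x ≤
      ka * Real.sqrt (((A.filter (fun a => f a = i)).card : ℝ) * B.card) := by
    intro i
    refine hleaf C i _ B ?_ hB
    intro a ha
    obtain ⟨ha1, ha2⟩ := mem_filter.1 ha
    exact ⟨hA a ha1, ha2 ▸ hf a (hA a ha1)⟩
  refine (sum_le_sum fun i _ => h1 i).trans ?_
  rw [← mul_sum, mul_assoc]
  refine mul_le_mul_of_nonneg_left ?_ hka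
  refine (sum_sqrt_le _ (fun i => by positivity)).trans ?_
  rw [← Real.sqrt_mul (Nat.cast_nonneg R), Fintype.card_fin, ← sum_mul]
  refine Real.sqrt_le_sqrt (le_of_eq ?_)
  congr 2
  rw [← Nat.cast_sum]
  congr 1
  exact (card_eq_sum_card_fiberwise (fun a _ => mem_coe.2 (mem_univ (f a)))).symm

theorem pf_MABS (hE : S_MEQN) (hP : S_MPATH) (hQ : S_MPHA) : S_MABS := by
  classical
  intro X Y _ _ n R K ka FY FX inF hR hka hsum hin hlow hleaf Ci A W hA hX hBd
  set ka2 : ℝ := ka * Real.sqrt R with hka2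
  have hR1 : (1 : ℝ) ≤ R := by exact_mod_cast hR
  have hsR : 1 ≤ Real.sqrt R := by
    rw [← Real.sqrt_one]
    exact Real.sqrt_le_sqrt hR1
  have hka20 : 0 ≤ ka2 := mul_nonneg hka (Real.sqrt_nonneg _)
  have hka2le : ka ≤ ka2 := le_mul_of_one_le_right hka hsR
  have hsq : ka2 ^ 2 = R * ka ^ 2 := by
    rw [hka2, mul_pow, Real.sq_sqrt (Nat.cast_nonneg R)]
    ring
  have hlow2 : ∀ (A : Finset Y) (B : Finset X),
      -(ka2 * Real.sqrt ((A.card : ℝ) * B.card)) ≤ ∑ a ∈ A, ∑ x ∈ B, K a x := by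
    intro A B
    refine le_trans ?_ (hlow A B)
    exact neg_le_neg (mul_le_mul_of_nonneg_right hka2le (Real.sqrt_nonneg _))
  have hleaf2 := leaf_all K ka FY FX inF hR hka hin hleaf
  set T : ℝ := (A.card : ℝ) * (univ : Finset X).card with hT
  have hT0 : 0 ≤ T := by positivity
  have hTs : ∑ a ∈ A, ∑ x ∈ (univ : Finset X), K a x = T := by
    rw [sum_congr rfl (fun a _ => hsum a), sum_const, nsmul_eq_mul, hT, card_univ]
  have hgoal : (A.card : ℝ) * Fintype.card X = T := by rw [hT, card_univ]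
  rw [hgoal]
  -- the final step
  have hfin : ∀ U : ℝ, 0 ≤ U → U ≤ W → T ≤ ka2 * Real.sqrt (U * T) → T ≤ R * W * ka ^ 2 := by
    intro U hU hUW h
    have h1 : T ≤ ka2 ^ 2 * U := by
      rcases hT0.eq_or_lt with h0 | h0
      · rw [← h0]
        positivity
      · have h2 : T ^ 2 ≤ ka2 ^ 2 * U * T := by
          calc T ^ 2 ≤ (ka2 * Real.sqrt (U * T)) ^ 2 := pow_le_pow_left₀ hT0 h 2
            _ = ka2 ^ 2 * U * T := by
              rw [mul_pow, Real.sq_sqrt (mul_nonneg hU hT0)]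
              ring
        have h3 : T * T ≤ ka2 ^ 2 * U * T := by
          calc T * T = T ^ 2 := by ring
            _ ≤ _ := h2
        exact le_of_mul_le_mul_right h3 h0
    refine h1.trans ?_
    rw [hsq]
    calc (R : ℝ) * ka ^ 2 * U ≤ R * ka ^ 2 * W := mul_le_mul_of_nonneg_left hUW (by positivity)
      _ = R * W * ka ^ 2 := by ring
  rcases hBd with hW | ⟨t, p, htp, hW⟩
  · refine hfin Ci.paths (Nat.cast_nonneg _) hW ?_
    rw [← hTs]
    refine (hP X Y n K ka2 FY FX hka20 hleaf2 Ci.gate Ci.out A univ hA (fun x _ => hX x)).trans ?_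
    rw [hTs]
    exact le_rfl
  · -- phases
    have hclaim : ∀ t' : ℕ, ∀ v, v ≤ Ci.out → dep Ci.gate v ≤ (t' + 1) * p →
        ∀ (A2 : Finset Y) (B2 : Finset X), (∀ a ∈ A2, val Ci.gate (FY a) v) →
        (∀ x ∈ B2, ¬ val Ci.gate (FX x) v) → (A2.card : ℝ) * B2.card ≤ T →
        ∑ a ∈ A2, ∑ x ∈ B2, K a x ≤
          (2 * (Ci.size : ℝ) + 1) ^ t' * (ka2 * Real.sqrt (2 ^ p * T)) := by
      intro t'
      induction t' with
      | zero =>
        intro v hv hdv A2 B2 h1 h2 h3
        refine (hP X Y n K ka2 FY FX hka20 hleaf2 Ci.gate v A2 B2 h1 h2).trans ?_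
        rw [pow_zero, one_mul]
        refine mul_le_mul_of_nonneg_left (Real.sqrt_le_sqrt ?_) hka20
        have h4 : pth Ci.gate v ≤ 2 ^ p := by
          refine ((hE n Ci.gate v).2.2.2.2.2).trans ?_
          exact Nat.pow_le_pow_right (by norm_num) (by omega)
        have h5 : (pth Ci.gate v : ℝ) ≤ 2 ^ p := by exact_mod_cast h4
        exact mul_le_mul h5 h3 (by positivity) (by positivity)
      | succ t' ih =>
        intro v hv hdv A2 B2 h1 h2 h3
        have hS : (Ci.size : ℝ) = (Ci.out : ℝ) + 1 := by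
          unfold Circuit.size
          push_cast
          ring
        have herr : 0 ≤ ka2 * Real.sqrt (2 ^ p * T) := mul_nonneg hka20 (Real.sqrt_nonneg _)
        have h4 := hQ X Y n K ka2 FY FX hka20 hlow2 hleaf2 Ci.gate Ci.out ((t' + 1) * p) p v A2 B2
          hv (by calc dep Ci.gate v ≤ (t' + 1 + 1) * p := hdv
                  _ = (t' + 1) * p + p := by ring) h1 h2
        refine h4.trans ?_
        have h5 : ∀ w ∈ (range (Ci.out + 1)).filter (fun w => dep Ci.gate w ≤ (t' + 1) * p),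
            ∑ a ∈ A2.filter (fun a => val Ci.gate (FY a) w),
              ∑ x ∈ B2.filter (fun x => ¬ val Ci.gate (FX x) w), K a x ≤
            (2 * (Ci.size : ℝ) + 1) ^ t' * (ka2 * Real.sqrt (2 ^ p * T)) := by
          intro w hw
          obtain ⟨hw1, hw2⟩ := mem_filter.1 hw
          refine ih w (by have := mem_range.1 hw1; omega) hw2 _ _
            (fun a ha => (mem_filter.1 ha).2) (fun x hx => (mem_filter.1 hx).2) ?_
          refine le_trans ?_ h3
          have c1 : ((A2.filter (fun a => val Ci.gate (FY a) w)).card : ℝ) ≤ A2.card := by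
            exact_mod_cast card_filter_le _ _
          have c2 : ((B2.filter (fun x => ¬ val Ci.gate (FX x) w)).card : ℝ) ≤ B2.card := by
            exact_mod_cast card_filter_le _ _
          exact mul_le_mul c1 c2 (by positivity) (by positivity)
        have h6 := sum_le_sum h5
        rw [sum_const, nsmul_eq_mul] at h6
        have h7 : (((range (Ci.out + 1)).filter
            (fun w => dep Ci.gate w ≤ (t' + 1) * p)).card : ℝ) ≤ (Ci.out : ℝ) + 1 := by
          have := card_filter_le (range (Ci.out + 1)) (fun w => dep Ci.gate w ≤ (t' + 1) * p)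
          rw [card_range] at this
          exact_mod_cast this
        have h8 : ka2 * Real.sqrt (2 ^ p * ((A2.card : ℝ) * B2.card)) ≤
            ka2 * Real.sqrt (2 ^ p * T) :=
          mul_le_mul_of_nonneg_left
            (Real.sqrt_le_sqrt (mul_le_mul_of_nonneg_left h3 (by positivity))) hka20
        have hpow : 1 ≤ (2 * (Ci.size : ℝ) + 1) ^ t' := one_le_pow₀ (by
          have : (0 : ℝ) ≤ Ci.size := Nat.cast_nonneg _
          linarith)
        have h9 : ((((range (Ci.out + 1)).filter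
            (fun w => dep Ci.gate w ≤ (t' + 1) * p)).card : ℝ)) *
            ((2 * (Ci.size : ℝ) + 1) ^ t' * (ka2 * Real.sqrt (2 ^ p * T))) ≤
            ((Ci.out : ℝ) + 1) * ((2 * (Ci.size : ℝ) + 1) ^ t' * (ka2 * Real.sqrt (2 ^ p * T))) :=
          mul_le_mul_of_nonneg_right h7 (by positivity)
        have h10 : ((Ci.out : ℝ) + 2) * (ka2 * Real.sqrt (2 ^ p * ((A2.card : ℝ) * B2.card))) ≤
            ((Ci.out : ℝ) + 2) * ((2 * (Ci.size : ℝ) + 1) ^ t' *
              (ka2 * Real.sqrt (2 ^ p * T))) := by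
          refine mul_le_mul_of_nonneg_left (h8.trans ?_) (by positivity)
          exact le_mul_of_one_le_left herr hpow
        refine (add_le_add (h6.trans h9) h10).trans (le_of_eq ?_)
        rw [pow_succ, hS]
        ring
    have h11 := hclaim t Ci.out le_rfl htp A univ hA (fun x _ => hX x) le_rfl
    rw [hTs] at h11
    refine hfin ((2 * (Ci.size : ℝ) + 1) ^ (2 * t) * 2 ^ p) (by positivity) hW ?_
    refine h11.trans (le_of_eq ?_)
    have h12 : (2 * (Ci.size : ℝ) + 1) ^ (2 * t) * 2 ^ p * T =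
        ((2 * (Ci.size : ℝ) + 1) ^ t) ^ 2 * (2 ^ p * T) := by
      rw [mul_comm 2 t, pow_mul]
      ring
    have h13 : Real.sqrt (((2 * (Ci.size : ℝ) + 1) ^ t) ^ 2 * (2 ^ p * T)) =
        (2 * (Ci.size : ℝ) + 1) ^ t * Real.sqrt (2 ^ p * T) := by
      rw [Real.sqrt_mul (by positivity), Real.sqrt_sq (by positivity)]
    rw [h12, h13]
    ring

end Pool.Agent.H58.MO
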