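import Pool.Agent.H51.MO.TargetsB

/-! Row B_MCLN (MP_c62aed_lc, monotone circuits): the final form of the size-depth bound. -/

set_option autoImplicit false

namespace Pool.Agent.H58.MO

open Finset Pool.Agent.H51.MO

theorem ceil_ge (d t : ℕ) : d ≤ (t + 1) * ((d + t) / (t + 1)) := by
  have h := Nat.lt_mul_div_succ (d + t) (Nat.succ_pos t)
  have h2 : (t + 1) * ((d + t) / (t + 1) + 1) = (t + 1) * ((d + t) / (t + 1)) + (t + 1) := by ring
  have h3 : d + t < (t + 1) * ((d + t) / (t + 1) + 1) := h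
  omega

theorem ceil_le (d t : ℕ) : (((d + t) / (t + 1) : ℕ) : ℝ) ≤ (d : ℝ) / (t + 1) + 1 := by
  have h := Nat.cast_div_le (α := ℝ) (m := d + t) (n := t + 1)
  refine h.trans ?_
  have ht : (0 : ℝ) < (t : ℝ) + 1 := by positivity
  push_cast
  rw [div_le_iff₀ ht]
  have : ((d : ℝ) / (t + 1) + 1) * (t + 1) = d + (t + 1) := by
    field_simp
  rw [this]
  linarith

theorem pf_MCLN (hE : S_MEQN) : S_MCLN := by
  classical
  rintro k ε c c' hc0 hcc ⟨K, γ, hγ, n₀, hn⟩
  have hc : 0 < c := hc0.trans hcc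
  have hd : 0 < c - c' := sub_pos.2 hcc
  have hδ0 : 0 < (c - c') / 8 := by positivity
  obtain ⟨N1, hN1⟩ := exists_nat_ge (2 / (c - c'))
  obtain ⟨N2, hN2⟩ := exists_nat_ge ((2 : ℝ) ^ (c' / (2 * ((c - c') / 8))) / c)
  refine ⟨K, γ, hγ, n₀ + N1 + N2, fun n hnn => ?_⟩
  obtain ⟨Y, m, phi, hY, h1, h2⟩ := hn n (by omega)
  refine ⟨Y, m, phi, hY, h1, fun C hS hlt => ?_⟩
  have hB : ¬ Bd C ((2 : ℝ) ^ (c * n)) := fun h => absurd (h2 C hS h) (not_le.2 hlt)
  have hB1 : (2 : ℝ) ^ (c * n) < C.paths := not_le.1 fun h => hB (Or.inl h)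
  have hB2 : ∀ t p : ℕ, C.depth ≤ (t + 1) * p →
      (2 : ℝ) ^ (c * n) < (2 * (C.size : ℝ) + 1) ^ (2 * t) * 2 ^ p :=
    fun t p h => not_le.1 fun h' => hB (Or.inr ⟨t, p, h, h'⟩)
  have hn0 : (0 : ℝ) ≤ n := Nat.cast_nonneg n
  have hle : (2 : ℝ) ^ (c' * n) ≤ (2 : ℝ) ^ (c * n) :=
    Real.rpow_le_rpow_of_exponent_le (by norm_num) (mul_le_mul_of_nonneg_right hcc.le hn0)
  refine ⟨hle.trans hB1.le, fun t => ?_⟩
  have hs1 : (1 : ℝ) ≤ C.size := by
    unfold Circuit.size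
    push_cast
    have : (0 : ℝ) ≤ C.out := Nat.cast_nonneg _
    linarith
  have hs0 : (0 : ℝ) < C.size := by linarith
  have hD0 : 0 < (2 : ℝ) ^ ((C.depth : ℝ) / (t + 1)) := by positivity
  -- the main inequality
  have hmain : (2 : ℝ) ^ (c * n) <
      (2 * 9 ^ t) * ((C.size : ℝ) ^ (2 * t) * (2 : ℝ) ^ ((C.depth : ℝ) / (t + 1))) := by
    refine (hB2 t _ (ceil_ge C.depth t)).trans_le ?_
    have e1 : (2 * (C.size : ℝ) + 1) ^ (2 * t) ≤ 9 ^ t * (C.size : ℝ) ^ (2 * t) := by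
      have : (2 * (C.size : ℝ) + 1) ^ (2 * t) ≤ (3 * (C.size : ℝ)) ^ (2 * t) :=
        pow_le_pow_left₀ (by positivity) (by linarith) _
      refine this.trans (le_of_eq ?_)
      rw [mul_pow, pow_mul (3 : ℝ) 2 t]
      norm_num
    have e2 : (2 : ℝ) ^ ((C.depth + t) / (t + 1)) ≤ 2 * (2 : ℝ) ^ ((C.depth : ℝ) / (t + 1)) := by
      rw [← Real.rpow_natCast]
      refine (Real.rpow_le_rpow_of_exponent_le (by norm_num) (ceil_le C.depth t)).trans ?_
      rw [Real.rpow_add (by norm_num), Real.rpow_one]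
      exact le_of_eq (mul_comm _ _)
    calc (2 * (C.size : ℝ) + 1) ^ (2 * t) * 2 ^ ((C.depth + t) / (t + 1))
        ≤ (9 ^ t * (C.size : ℝ) ^ (2 * t)) * (2 * (2 : ℝ) ^ ((C.depth : ℝ) / (t + 1))) :=
          mul_le_mul e1 e2 (by positivity) (by positivity)
      _ = _ := by ring
  by_cases hcase : (2 * 9 ^ t : ℝ) ≤ (2 : ℝ) ^ ((c - c') * n)
  · have h3 : (2 : ℝ) ^ (c * n) = (2 : ℝ) ^ ((c - c') * n) * (2 : ℝ) ^ (c' * n) := by
      rw [← Real.rpow_add (by norm_num)]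
      congr 1
      ring
    rw [h3] at hmain
    have h4 : (2 : ℝ) ^ ((c - c') * n) * (2 : ℝ) ^ (c' * n) <
        (2 : ℝ) ^ ((c - c') * n) *
          ((C.size : ℝ) ^ (2 * t) * (2 : ℝ) ^ ((C.depth : ℝ) / (t + 1))) :=
      hmain.trans_le (mul_le_mul_of_nonneg_right hcase (by positivity))
    exact (lt_of_mul_lt_mul_left h4 (by positivity)).le
  · push Not at hcase
    -- t is large
    have h9 : (2 * 9 ^ t : ℝ) ≤ (2 : ℝ) ^ ((4 * t + 1 : ℝ)) := by
      have : (2 : ℝ) ^ ((4 * t + 1 : ℝ)) = 2 * 16 ^ t := by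
        rw [Real.rpow_add (by norm_num), Real.rpow_one, mul_comm, Real.rpow_mul (by norm_num),
          Real.rpow_natCast]
        norm_num
      rw [this]
      have : (9 : ℝ) ^ t ≤ 16 ^ t := pow_le_pow_left₀ (by norm_num) (by norm_num) _
      linarith
    have h10 : (c - c') * n < 4 * t + 1 :=
      (Real.rpow_lt_rpow_left_iff (by norm_num : (1 : ℝ) < 2)).1 (hcase.trans_le h9)
    have h11 : 2 ≤ (c - c') * n := by
      have hN : (N1 : ℝ) ≤ n := by exact_mod_cast (by omega : N1 ≤ n)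
      have := (div_le_iff₀ hd).1 (hN1.trans hN)
      linarith
    have h12 : (c - c') / 8 * n ≤ t := by linarith
    -- size is large
    have h13 : c * n ≤ C.size := by
      have h14 := hB2 0 C.depth (by omega)
      simp only [mul_zero, pow_zero, one_mul] at h14
      rw [← Real.rpow_natCast] at h14
      have h15 : c * n < C.depth := (Real.rpow_lt_rpow_left_iff (by norm_num : (1 : ℝ) < 2)).1 h14
      have h16 : C.depth ≤ C.size := by
        have := (hE n C.gate C.out).2.2.2.2.1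
        unfold Circuit.depth Circuit.size
        omega
      have h17 : (C.depth : ℝ) ≤ C.size := by exact_mod_cast h16
      linarith
    have h18 : (2 : ℝ) ^ (c' / (2 * ((c - c') / 8))) ≤ C.size := by
      have hN : (N2 : ℝ) ≤ n := by exact_mod_cast (by omega : N2 ≤ n)
      have := (div_le_iff₀ hc).1 (hN2.trans hN)
      linarith
    have h19 : (2 : ℝ) ^ (c' * n) ≤ (C.size : ℝ) ^ (2 * t) := by
      have h20 : ((2 : ℝ) ^ (c' / (2 * ((c - c') / 8)))) ^ (2 * t) ≤ (C.size : ℝ) ^ (2 * t) :=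
        pow_le_pow_left₀ (by positivity) h18 _
      refine le_trans ?_ h20
      rw [← Real.rpow_natCast, ← Real.rpow_mul (by norm_num)]
      refine Real.rpow_le_rpow_of_exponent_le (by norm_num) ?_
      have h21 : c' / (2 * ((c - c') / 8)) * ((2 * t : ℕ) : ℝ) = c' * (t / ((c - c') / 8)) := by
        push_cast
        field_simp
      rw [h21]
      refine mul_le_mul_of_nonneg_left ?_ hc0.le
      rw [le_div_iff₀ hδ0]
      linarith
    refine h19.trans ?_
    have h22 : (1 : ℝ) ≤ (2 : ℝ) ^ ((C.depth : ℝ) / (t + 1)) :=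
      Real.one_le_rpow (by norm_num) (by positivity)
    exact le_mul_of_one_le_right (by positivity) h22

end Pool.Agent.H58.MO
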