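import Pool.Agent.H51.MO.TargetsB
import Pool.Agent.H78.KX.PAD

/-! Row B_MPAD (MP_c62aed_lc, monotone circuits): padding of the clauses. -/

set_option autoImplicit false

namespace Pool.Agent.H58.MO

open Finset hiding ext
open Pool.Agent.H51.MO
open Pool.Agent.H1.LP (Clause viol)
open Pool.Agent.H78.KX (ext ext_card ext_card' ext_sat pad pe viol_pad)

theorem ext_sub {n r : ℕ} {C0 C1 : Clause n} {s s1 : Fin r → Bool} (h : ext C0 s = ext C1 s1) :
    C0 ⊆ C1 := by
  intro l hl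
  have h1 : ((Fin.castAdd r l.1, l.2) : Fin (n + r) × Bool) ∈ ext C1 s1 := by
    rw [← h]
    unfold ext
    exact mem_union_left _ (mem_image.2 ⟨l, hl, rfl⟩)
  unfold ext at h1
  rw [mem_union, mem_image, mem_image] at h1
  rcases h1 with ⟨l', hl', he⟩ | ⟨t, _, he⟩
  · have e1 := congrArg Prod.fst he
    have e2 := congrArg Prod.snd he
    simp only [Fin.castAdd_inj] at e1
    have : l' = l := Prod.ext e1 e2
    exact this ▸ hl'
  · have := congrArg (fun q => (Prod.fst q).val) he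
    simp only [Fin.val_natAdd, Fin.val_castAdd] at this
    have := l.1.isLt
    omega

theorem ext_inj {n r : ℕ} {C0 C1 : Clause n} {s s1 : Fin r → Bool} (h : ext C0 s = ext C1 s1) :
    C0 = C1 :=
  Subset.antisymm (ext_sub h) (ext_sub h.symm)

open Classical in
/-- the restricted gates -/
noncomputable def rg {n r : ℕ} (g : (i : ℕ) → Gate (n + r) i) (i : ℕ) : Gate n i :=
  match g i with
  | .cst b => .cst b
  | .inp D => if h : ∃ (C0 : Clause n) (s : Fin r → Bool), D = ext C0 s then .inp h.choose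
      else .cst false
  | .and j l => .and j l
  | .or j l => .or j l

/-- the extended formula -/
def ef {n : ℕ} (r : ℕ) (F : Set (Clause n)) : Set (Clause (n + r)) :=
  {D | ∃ C0 ∈ F, ∃ s : Fin r → Bool, D = ext C0 s}

theorem rg_spec (hE : S_MEQN) {n r : ℕ} (g : (i : ℕ) → Gate (n + r) i) (i : ℕ) :
    (∀ F, val (rg g) F i ↔ val g (ef r F) i) ∧ dep (rg g) i = dep g i ∧
      pth (rg g) i = pth g i := by
  induction i using Nat.strong_induction_on with
  | _ i ih =>
    obtain ⟨a1, a2, a3, a4, -⟩ := hE (n + r) g i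
    obtain ⟨b1, b2, b3, b4, -⟩ := hE n (rg g) i
    cases hg : g i with
    | cst b =>
      have hr : rg g i = .cst b := by unfold rg; rw [hg]
      obtain ⟨p1, p2, p3⟩ := a1 b hg
      obtain ⟨q1, q2, q3⟩ := b1 b hr
      exact ⟨fun F => by rw [p1, q1], by rw [p2, q2], by rw [p3, q3]⟩
    | inp D =>
      obtain ⟨p1, p2, p3⟩ := a2 D hg
      by_cases h : ∃ (C0 : Clause n) (s : Fin r → Bool), D = ext C0 s
      · have hr : rg g i = .inp h.choose := by
          unfold rg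
          rw [hg]
          simp only [h, dite_true]
        obtain ⟨q1, q2, q3⟩ := b2 _ hr
        refine ⟨fun F => ?_, by rw [p2, q2], by rw [p3, q3]⟩
        rw [p1, q1]
        obtain ⟨s, hs⟩ := h.choose_spec
        constructor
        · intro hF
          exact ⟨h.choose, hF, s, hs⟩
        · rintro ⟨C0, hC0, s0, hs0⟩
          have : C0 = h.choose := ext_inj (hs0.symm.trans hs)
          exact this ▸ hC0
      · have hr : rg g i = .cst false := by
          unfold rg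
          rw [hg]
          simp only [h, dite_false]
        obtain ⟨q1, q2, q3⟩ := b1 _ hr
        refine ⟨fun F => ?_, by rw [p2, q2], by rw [p3, q3]⟩
        rw [p1, q1]
        constructor
        · intro hF
          exact absurd hF (by simp)
        · rintro ⟨C0, hC0, s0, hs0⟩
          exact absurd ⟨C0, s0, hs0⟩ h
    | and j l =>
      have hr : rg g i = .and j l := by unfold rg; rw [hg]
      obtain ⟨p1, p2, p3⟩ := a3 j l hg
      obtain ⟨q1, q2, q3⟩ := b3 j l hr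
      obtain ⟨j1, j2, j3⟩ := ih j.1 j.2
      obtain ⟨l1, l2, l3⟩ := ih l.1 l.2
      exact ⟨fun F => by rw [p1, q1, j1, l1], by rw [p2, q2, j2, l2], by rw [p3, q3, j3, l3]⟩
    | or j l =>
      have hr : rg g i = .or j l := by unfold rg; rw [hg]
      obtain ⟨p1, p2, p3⟩ := a4 j l hg
      obtain ⟨q1, q2, q3⟩ := b4 j l hr
      obtain ⟨j1, j2, j3⟩ := ih j.1 j.2
      obtain ⟨l1, l2, l3⟩ := ih l.1 l.2
      exact ⟨fun F => by rw [p1, q1, j1, l1], by rw [p2, q2, j2, l2], by rw [p3, q3, j3, l3]⟩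

/-- the restricted circuit -/
noncomputable def rc {n r : ℕ} (C : Circuit (n + r)) : Circuit n := ⟨C.out, rg C.gate⟩

theorem range_pad {n m : ℕ} (r : ℕ) (phi : Fin m → Clause n) :
    Set.range (pad r phi) = ef r (Set.range phi) := by
  ext D
  constructor
  · rintro ⟨i, rfl⟩
    exact ⟨_, ⟨(pe m r i).1, rfl⟩, (pe m r i).2, rfl⟩
  · rintro ⟨_, ⟨i, rfl⟩, s, rfl⟩
    refine ⟨(pe m r).symm (i, s), ?_⟩
    unfold pad
    rw [Equiv.apply_symm_apply]

theorem acc_pad (hE : S_MEQN) {n m r : ℕ} (C : Circuit (n + r)) (phi : Fin m → Clause n) :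
    Acc C (pad r phi) ↔ Acc (rc C) phi := by
  unfold Pool.Agent.H51.MO.Acc
  rw [range_pad]
  exact ((rg_spec hE C.gate C.out).1 _).symm

theorem sound_rc (hE : S_MEQN) {n r w K : ℕ} (C : Circuit (n + r))
    (h : Sound C (w + r) (K * 2 ^ r * (n + r))) : Sound (rc C) w (K * n) := by
  rintro m phi hm hw ⟨x, hx⟩
  rw [← acc_pad hE]
  refine h _ _ ?_ ?_ ⟨Fin.append x (fun _ => false), ?_⟩
  · calc m * 2 ^ r ≤ K * n * 2 ^ r := Nat.mul_le_mul_right _ hm
      _ = K * 2 ^ r * n := by ring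
      _ ≤ K * 2 ^ r * (n + r) := Nat.mul_le_mul_left _ (by omega)
  · intro i
    unfold pad
    exact ⟨by rw [ext_card, (hw _).1], by rw [ext_card', (hw _).2]⟩
  · intro i
    unfold pad
    rw [ext_sat]
    left
    simpa using hx _

theorem bd_rc (hE : S_MEQN) {n r : ℕ} (C : Circuit (n + r)) {W W' : ℝ} (hW : W ≤ W')
    (h : Bd C W) : Bd (rc C) W' := by
  have h1 : (rc C).paths = C.paths := (rg_spec hE C.gate C.out).2.2
  have h2 : (rc C).depth = C.depth := (rg_spec hE C.gate C.out).2.1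
  have h3 : (rc C).size = C.size := rfl
  unfold Bd at *
  rw [h1, h2, h3]
  rcases h with h | ⟨t, p, ht, hp⟩
  · exact Or.inl (h.trans hW)
  · exact Or.inr ⟨t, p, ht, hp.trans hW⟩

theorem pf_MPAD (hE : S_MEQN) : S_MPAD := by
  classical
  intro w k ε c c' hwk hcc hH
  obtain ⟨r, rfl⟩ := Nat.exists_eq_add_of_le hwk
  obtain ⟨K, γ, hγ, n₀, hn₀⟩ := hH
  have hd : 0 < c - c' := sub_pos.2 hcc
  obtain ⟨N1, hN1⟩ := exists_nat_ge (c * r / (c - c'))
  obtain ⟨N2, hN2⟩ := exists_nat_ge ((γ + 1) * r / (γ / 2))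
  refine ⟨K * 2 ^ r, γ / 2, by positivity, n₀ + r + N1 + N2, ?_⟩
  intro n hn
  obtain ⟨n1, rfl⟩ : ∃ n1, n = n1 + r := ⟨n - r, by omega⟩
  obtain ⟨Y, m, phi, hY, hphi, hmain⟩ := hn₀ n1 (by omega)
  have hA : c' * ((n1 + r : ℕ) : ℝ) ≤ c * n1 := by
    have h1 : (N1 : ℝ) ≤ ((n1 + r : ℕ) : ℝ) := by exact_mod_cast (by omega : N1 ≤ n1 + r)
    have h2 : c * r ≤ ((n1 + r : ℕ) : ℝ) * (c - c') := (div_le_iff₀ hd).1 (hN1.trans h1)
    have h3 : ((n1 + r : ℕ) : ℝ) = n1 + r := by push_cast; ring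
    rw [h3] at h2 ⊢
    nlinarith
  have hB : (γ + 1) * r ≤ ((n1 + r : ℕ) : ℝ) * (γ / 2) := by
    have h1 : (N2 : ℝ) ≤ ((n1 + r : ℕ) : ℝ) := by exact_mod_cast (by omega : N2 ≤ n1 + r)
    exact (div_le_iff₀ (by positivity)).1 (hN2.trans h1)
  have hD : (2 : ℝ) ^ (-(γ * n1)) ≤ (2 : ℝ) ^ (-(γ / 2 * ((n1 + r : ℕ) : ℝ))) := by
    refine Real.rpow_le_rpow_of_exponent_le (by norm_num) ?_
    have h3 : ((n1 + r : ℕ) : ℝ) = n1 + r := by push_cast; ring
    have hr : (0 : ℝ) ≤ r := Nat.cast_nonneg r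
    rw [h3] at hB ⊢
    nlinarith
  refine ⟨Y, fun a => m a * 2 ^ r, fun a => pad r (phi a), hY, ?_, ?_⟩
  · intro a
    obtain ⟨h1, h2, h3, h4⟩ := hphi a
    refine ⟨Nat.mul_pos h1 (by positivity), ?_, ?_, ?_⟩
    · calc m a * 2 ^ r ≤ K * n1 * 2 ^ r := Nat.mul_le_mul_right _ h2
        _ = K * 2 ^ r * n1 := by ring
        _ ≤ K * 2 ^ r * (n1 + r) := Nat.mul_le_mul_left _ (by omega)
    · intro i
      unfold pad
      exact ⟨by rw [ext_card, (h3 _).1], by rw [ext_card', (h3 _).2]⟩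
    · intro x
      rw [viol_pad]
      refine le_trans (le_of_eq ?_) (h4 _)
      have h5 : (((m a * 2 ^ r : ℕ) : ℝ)) = m a * 2 ^ r := by push_cast; ring
      rw [h5, pow_add]
      field_simp
  · intro C hS hBd
    have h1 := hmain (rc C) (sound_rc hE C hS)
      (bd_rc hE C (Real.rpow_le_rpow_of_exponent_le (by norm_num) hA) hBd)
    refine le_trans ?_ (h1.trans (mul_le_mul_of_nonneg_right hD (by positivity)))
    norm_cast
    refine Finset.card_le_card fun a ha => ?_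
    rw [mem_filter] at ha ⊢
    exact ⟨ha.1, (acc_pad hE C (phi a)).1 ha.2⟩

end Pool.Agent.H58.MO
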